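import Pool.Agent.Y716.Q.Defs

/-!
# Few integral forms have an almost singular approximate zero
-/

namespace Pool.Agent.Y278.Z8

open Pool.Agent.Y716.Q

variable {ι : Type*} [Fintype ι]

/-- The perturbations used. -/
noncomputable def pert (e : ℕ) (r : ι) (c : ι → ℤ) : MvPolynomial ι ℤ :=
  ∑ i, MvPolynomial.C (c i) * (MvPolynomial.X r ^ (e + 1) * MvPolynomial.X i)

theorem pert_eq (e : ℕ) (r : ι) (c : ι → ℤ) : pert e r c =
    ∑ i, MvPolynomial.monomial (Finsupp.single r (e + 1) + Finsupp.single i 1) (c i) := by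
  unfold pert
  refine Finset.sum_congr rfl (fun i _ => ?_)
  have hm : (MvPolynomial.X r ^ (e + 1) * MvPolynomial.X i : MvPolynomial ι ℤ) =
      MvPolynomial.monomial (Finsupp.single r (e + 1) + Finsupp.single i 1) 1 := by
    rw [MvPolynomial.X_pow_eq_monomial, MvPolynomial.X, MvPolynomial.monomial_mul, mul_one]
  rw [hm, MvPolynomial.C_mul_monomial, mul_one]

theorem pert_isF (e : ℕ) (r : ι) {c : ι → ℤ} {R : ℝ} (hR : 0 ≤ R) (hc : ∀ i, |(c i : ℝ)| ≤ R) :
    IsF (e + 2) R (pert e r c) := by
  classical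
  rw [pert_eq]
  constructor
  · apply MvPolynomial.IsHomogeneous.sum
    intro i _
    apply MvPolynomial.isHomogeneous_monomial
    simp [Finsupp.degree_single]
    try ring
  · intro m
    rw [MvPolynomial.coeff_sum]
    by_cases hm : ∃ i : ι, Finsupp.single r (e + 1) + Finsupp.single i 1 = m
    · obtain ⟨i, hi⟩ := hm
      rw [Finset.sum_eq_single i]
      · rw [MvPolynomial.coeff_monomial, if_pos hi]
        exact hc i
      · intro j _ hj
        rw [MvPolynomial.coeff_monomial, if_neg]
        intro h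
        apply hj
        have h1 := h.trans hi.symm
        have h2 := add_left_cancel h1
        exact Finsupp.single_left_injective one_ne_zero h2
      · intro h; exact absurd (Finset.mem_univ i) h
    · rw [Finset.sum_eq_zero]
      · simpa using hR
      · intro i _
        rw [MvPolynomial.coeff_monomial, if_neg]
        intro h
        exact hm ⟨i, h⟩

omit [Fintype ι] in
theorem IsF.add' {d : ℕ} {R S : ℝ} {f g : MvPolynomial ι ℤ} (hf : IsF d R f) (hg : IsF d S g) :
    IsF d (R + S) (f + g) := by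
  refine ⟨hf.1.add hg.1, fun m => ?_⟩
  rw [MvPolynomial.coeff_add]
  push_cast
  exact (abs_add_le _ _).trans (add_le_add (hf.2 m) (hg.2 m))

omit [Fintype ι] in
theorem IsF.mono' {d : ℕ} {R S : ℝ} {f : MvPolynomial ι ℤ} (hf : IsF d R f) (h : R ≤ S) :
    IsF d S f := ⟨hf.1, fun m => (hf.2 m).trans h⟩

theorem pert_aeval {A : Type*} [CommRing A] (e : ℕ) (r : ι) (c : ι → ℤ) (x : ι → A)
    (hx : x r = 1) :
    MvPolynomial.aeval x (pert e r c) = ∑ i, (c i : A) * x i := by
  unfold pert
  rw [map_sum]
  refine Finset.sum_congr rfl (fun i _ => ?_)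
  simp [hx]

theorem pert_pderiv {A : Type*} [CommRing A] (e : ℕ) (r : ι) (c : ι → ℤ) (x : ι → A)
    (hx : x r = 1) {i : ι} (hi : i ≠ r) :
    MvPolynomial.aeval x (MvPolynomial.pderiv i (pert e r c)) = (c i : A) := by
  classical
  unfold pert
  rw [map_sum, map_sum, Finset.sum_eq_single i]
  · rw [MvPolynomial.pderiv_C_mul, MvPolynomial.pderiv_mul, MvPolynomial.pderiv_pow,
      MvPolynomial.pderiv_X_of_ne (Ne.symm hi), MvPolynomial.pderiv_X_self]
    simp [hx]
  · intro j _ hj
    rw [MvPolynomial.pderiv_C_mul, MvPolynomial.pderiv_mul, MvPolynomial.pderiv_pow,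
      MvPolynomial.pderiv_X_of_ne (Ne.symm hi), MvPolynomial.pderiv_X_of_ne hj]
    simp
  · intro h; exact absurd (Finset.mem_univ i) h

theorem pert_sub (e : ℕ) (r : ι) (c c' : ι → ℤ) :
    pert e r (fun i => c i - c' i) = pert e r c - pert e r c' := by
  unfold pert
  rw [← Finset.sum_sub_distrib]
  refine Finset.sum_congr rfl (fun i _ => ?_)
  rw [map_sub]; ring

/-- Abstract counting: a property `P` of forms such that perturbations by differences of vectors
of the box `B` destroy it. -/
theorem inj_count (e : ℕ) (r : ι) (R S : ℝ) (hS : 0 ≤ S) (P : MvPolynomial ι ℤ → Prop)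
    (B : Finset (ι → ℤ)) (hB : ∀ c ∈ B, ∀ i, |(c i : ℝ)| ≤ S)
    (hP : ∀ f g, P f → P g → ∀ c ∈ B, ∀ c' ∈ B, pert e r (fun i => c i - c' i) = g - f → c = c')
    [DecidablePred P] :
    ((formsZ ι (e + 2) R).filter P).card * B.card ≤ (formsZ ι (e + 2) (R + S)).card := by
  classical
  rw [← Finset.card_product]
  apply Finset.card_le_card_of_injOn (fun p => p.1 + pert e r p.2)
  · rintro ⟨f, c⟩ hp
    simp only [Finset.coe_product, Set.mem_prod, Finset.mem_coe] at hp
    simp only [Finset.mem_coe, mem_formsZ]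
    apply IsF.add' (mem_formsZ.mp (Finset.mem_filter.mp hp.1).1)
    apply pert_isF _ _ hS
    exact hB c hp.2
  · rintro ⟨f, c⟩ hp ⟨f', c'⟩ hp' heq
    simp only [Finset.coe_product, Set.mem_prod, Finset.mem_coe] at hp hp'
    obtain ⟨hf, hc⟩ := hp
    obtain ⟨hf', hc'⟩ := hp'
    simp only at heq
    have hpe : pert e r (fun i => c i - c' i) = f' - f := by
      rw [pert_sub]; linear_combination heq
    have hcc := hP f f' (Finset.mem_filter.mp hf).2 (Finset.mem_filter.mp hf').2 c hc c' hc' hpe
    subst hcc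
    have := add_right_cancel heq
    subst this
    rfl

omit [Fintype ι] in
theorem eval_congr_dvd (f : MvPolynomial ι ℤ) {Q : ℤ} {x y : ι → ℤ} (h : ∀ i, Q ∣ x i - y i) :
    Q ∣ MvPolynomial.eval x f - MvPolynomial.eval y f := by
  induction f using MvPolynomial.induction_on with
  | C a => simp
  | add p q hp hq =>
    simp only [map_add]
    have h2 : MvPolynomial.eval x p + MvPolynomial.eval x q -
        (MvPolynomial.eval y p + MvPolynomial.eval y q) =
        (MvPolynomial.eval x p - MvPolynomial.eval y p) +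
        (MvPolynomial.eval x q - MvPolynomial.eval y q) := by ring
    rw [h2]
    exact dvd_add hp hq
  | mul_X p i hp =>
    simp only [map_mul, MvPolynomial.eval_X]
    have : MvPolynomial.eval x p * x i - MvPolynomial.eval y p * y i =
      (MvPolynomial.eval x p - MvPolynomial.eval y p) * x i +
      MvPolynomial.eval y p * (x i - y i) := by ring
    rw [this]
    exact dvd_add (Dvd.dvd.mul_right hp _) (Dvd.dvd.mul_left (h i) _)

open scoped Classical in
/-- For fixed `x`, few forms have an almost singular approximate zero at `x`. -/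
theorem bad_at_point (e Q : ℕ) (hQ : 1 ≤ Q) (R : ℝ) (r : ι)
    (x : ι → ℤ) (hx : x r = 1) :
    ((formsZ ι (e + 2) R).filter (fun f => (Q : ℤ) ∣ MvPolynomial.eval x f ∧
      ∀ i, (Q : ℤ) ∣ MvPolynomial.eval x (MvPolynomial.pderiv i f))).card *
      Q ^ Fintype.card ι ≤ (formsZ ι (e + 2) (R + Q)).card := by
  have hB : (Fintype.piFinset (fun _ : ι => Finset.Icc (1 : ℤ) Q)).card = Q ^ Fintype.card ι := by
    rw [Fintype.card_piFinset]
    simp
  rw [← hB]
  have hev : ∀ f : MvPolynomial ι ℤ, MvPolynomial.eval x f = MvPolynomial.aeval x f := by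
    intro f; rw [MvPolynomial.aeval_eq_eval]
  apply inj_count e r R Q (by positivity)
  · intro c hc i
    have h1 := Finset.mem_Icc.mp (Fintype.mem_piFinset.mp hc i)
    rw [abs_le]
    constructor
    · have : (0 : ℝ) ≤ (c i : ℝ) := by exact_mod_cast (by omega : (0 : ℤ) ≤ c i)
      have h3 : (0 : ℝ) ≤ (Q : ℝ) := by positivity
      linarith
    · exact_mod_cast h1.2
  · rintro f f' ⟨h1, h2⟩ ⟨h1', h2'⟩ c hc c' hc' hpe
    have hzero : ∀ i, (Q : ℤ) ∣ c i - c' i → c i = c' i := by
      intro i hd
      have h3 := Finset.mem_Icc.mp (Fintype.mem_piFinset.mp hc i)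
      have h4 := Finset.mem_Icc.mp (Fintype.mem_piFinset.mp hc' i)
      have h5 : c i - c' i = 0 := by
        apply Int.eq_zero_of_abs_lt_dvd hd
        rw [abs_lt]
        constructor <;> omega
      omega
    have hne : ∀ i, i ≠ r → c i = c' i := by
      intro i hi
      apply hzero
      have h3 := pert_pderiv e r (fun i => c i - c' i) x hx hi
      simp only [Int.cast_id] at h3
      rw [← h3, hpe, map_sub, map_sub, ← hev, ← hev]
      exact dvd_sub (h2' i) (h2 i)
    have hr : c r = c' r := by
      apply hzero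
      have h3 := pert_aeval e r (fun i => c i - c' i) x hx
      simp only [Int.cast_id] at h3
      have h4 : ∑ i, (c i - c' i) * x i = c r - c' r := by
        rw [Finset.sum_eq_single r]
        · rw [hx, mul_one]
        · intro i _ hi
          rw [hne i hi, sub_self, zero_mul]
        · intro h; exact absurd (Finset.mem_univ r) h
      rw [← h4, ← h3, hpe, map_sub, ← hev, ← hev]
      exact dvd_sub h1' h1
    funext i
    by_cases hi : i = r
    · subst hi; exact hr
    · exact hne i hi

open scoped Classical in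
theorem card_norm_vecs (Q : ℕ) (r : ι) :
    ((Fintype.piFinset (fun _ : ι => Finset.Icc (1 : ℤ) Q)).filter (fun x => x r = 1)).card * Q ≤
      Q ^ Fintype.card ι := by
  have hB : (Fintype.piFinset (fun _ : ι => Finset.Icc (1 : ℤ) Q)).card = Q ^ Fintype.card ι := by
    rw [Fintype.card_piFinset]
    simp
  have hQ : (Finset.Icc (1 : ℤ) Q).card = Q := by simp
  rw [← hB]
  nth_rewrite 2 [← hQ]
  rw [← Finset.card_product]
  apply Finset.card_le_card_of_injOn (fun p i => if i = r then p.2 else p.1 i)
  · rintro ⟨x, c⟩ hp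
    simp only [Finset.coe_product, Set.mem_prod, Finset.mem_coe] at hp
    simp only [Finset.mem_coe, Fintype.mem_piFinset]
    intro i
    split_ifs
    · exact hp.2
    · exact Fintype.mem_piFinset.mp (Finset.mem_filter.mp hp.1).1 i
  · rintro ⟨x, c⟩ hp ⟨x', c'⟩ hp' heq
    simp only [Finset.coe_product, Set.mem_prod, Finset.mem_coe, Finset.mem_filter] at hp hp'
    simp only at heq
    have h1 := congrFun heq r
    simp only [if_true] at h1
    have h2 : x = x' := by
      funext i
      by_cases hi : i = r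
      · subst hi; rw [hp.1.2, hp'.1.2]
      · have := congrFun heq i
        simpa [hi] using this
    rw [h1, h2]

open scoped Classical in
theorem bad_count_int (e Q : ℕ) (hQ : 1 ≤ Q) (R : ℝ) (hR : 0 ≤ R) :
    ((formsZ ι (e + 2) R).filter (fun f => ∃ (r : ι) (x : ι → ℤ), x r = 1 ∧
      (Q : ℤ) ∣ MvPolynomial.eval x f ∧
      ∀ i, (Q : ℤ) ∣ MvPolynomial.eval x (MvPolynomial.pderiv i f))).card * Q ≤
    Fintype.card ι * (formsZ ι (e + 2) (R + Q)).card := by
  have hcov : (formsZ ι (e + 2) R).filter (fun f => ∃ (r : ι) (x : ι → ℤ), x r = 1 ∧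
      (Q : ℤ) ∣ MvPolynomial.eval x f ∧
      ∀ i, (Q : ℤ) ∣ MvPolynomial.eval x (MvPolynomial.pderiv i f)) ⊆
      (Finset.univ : Finset ι).biUnion (fun r =>
        ((Fintype.piFinset (fun _ : ι => Finset.Icc (1 : ℤ) Q)).filter
          (fun x => x r = 1)).biUnion (fun x =>
        (formsZ ι (e + 2) R).filter (fun f => (Q : ℤ) ∣ MvPolynomial.eval x f ∧
      ∀ i, (Q : ℤ) ∣ MvPolynomial.eval x (MvPolynomial.pderiv i f)))) := by
    intro f hf
    obtain ⟨hf1, r, x, hxr, h1, h2⟩ := Finset.mem_filter.mp hf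
    rw [Finset.mem_biUnion]
    refine ⟨r, Finset.mem_univ _, ?_⟩
    rw [Finset.mem_biUnion]
    have hQ0 : (0 : ℤ) < Q := by exact_mod_cast hQ
    have hcong : ∀ i, (Q : ℤ) ∣ ((x i - 1) % Q + 1) - x i := by
      intro i
      have h3 := Int.emod_add_mul_ediv (x i - 1) Q
      exact ⟨-((x i - 1) / Q), by linear_combination h3⟩
    refine ⟨fun i => (x i - 1) % Q + 1, ?_, ?_⟩
    · rw [Finset.mem_filter, Fintype.mem_piFinset]
      refine ⟨fun i => ?_, ?_⟩
      · rw [Finset.mem_Icc]
        have h3 := Int.emod_nonneg (x i - 1) hQ0.ne'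
        have h4 := Int.emod_lt_of_pos (x i - 1) hQ0
        constructor <;> omega
      · simp only [hxr]
        simp
    · rw [Finset.mem_filter]
      refine ⟨hf1, ?_, fun i => ?_⟩
      · have := dvd_add (eval_congr_dvd f hcong) h1
        simpa using this
      · have := dvd_add (eval_congr_dvd (MvPolynomial.pderiv i f) hcong) (h2 i)
        simpa using this
  set k := Fintype.card ι with hk
  have hqpos : 0 < Q ^ k := pow_pos hQ _
  set bad := (formsZ ι (e + 2) R).filter (fun f => ∃ (r : ι) (x : ι → ℤ), x r = 1 ∧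
      (Q : ℤ) ∣ MvPolynomial.eval x f ∧
      ∀ i, (Q : ℤ) ∣ MvPolynomial.eval x (MvPolynomial.pderiv i f)) with hbad
  set V : ι → Finset (ι → ℤ) := fun r =>
    (Fintype.piFinset (fun _ : ι => Finset.Icc (1 : ℤ) Q)).filter (fun x => x r = 1) with hV
  set N := (formsZ ι (e + 2) (R + Q)).card with hN
  have h1 : bad.card * Q * Q ^ k ≤ (k * N) * Q ^ k := by
    calc bad.card * Q * Q ^ k = bad.card * Q ^ k * Q := by ring
      _ ≤ (∑ r : ι, ∑ x ∈ V r,
          ((formsZ ι (e + 2) R).filter (fun f => (Q : ℤ) ∣ MvPolynomial.eval x f ∧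
      ∀ i, (Q : ℤ) ∣ MvPolynomial.eval x (MvPolynomial.pderiv i f))).card) *
          Q ^ k * Q := by
          apply Nat.mul_le_mul_right
          apply Nat.mul_le_mul_right
          refine (Finset.card_le_card hcov).trans (Finset.card_biUnion_le.trans ?_)
          exact Finset.sum_le_sum (fun r _ => Finset.card_biUnion_le)
      _ ≤ (∑ r : ι, (V r).card * N) * Q := by
          apply Nat.mul_le_mul_right
          rw [Finset.sum_mul]
          refine Finset.sum_le_sum (fun r _ => ?_)
          rw [Finset.sum_mul, ← smul_eq_mul]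
          apply Finset.sum_le_card_nsmul
          intro x hx
          exact bad_at_point e Q hQ R r x (Finset.mem_filter.mp hx).2
      _ = ∑ r : ι, ((V r).card * Q) * N := by
          rw [Finset.sum_mul]
          exact Finset.sum_congr rfl (fun r _ => by ring)
      _ ≤ ∑ _r : ι, Q ^ k * N :=
          Finset.sum_le_sum (fun r _ => Nat.mul_le_mul_right _ (card_norm_vecs _ r))
      _ = _ := by
          rw [Finset.sum_const, Finset.card_univ, smul_eq_mul]; ring
  exact Nat.le_of_mul_le_mul_right h1 hqpos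

end Pool.Agent.Y278.Z8
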