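import Pool.Agent.Y278.Z8.Bad

/-!
# Few integral forms have an almost singular approximate real zero
-/

namespace Pool.Agent.Y278.Z8

open Pool.Agent.Y716.Q

variable {ι : Type*} [Fintype ι]

theorem taylor_aux (g : MvPolynomial ι ℤ) : ∃ K : ℝ, 0 ≤ K ∧
    ∀ (ξ η : ι → ℝ) (δ : ℝ), 0 ≤ δ → (∀ i, |ξ i| ≤ 1) → (∀ i, |η i| ≤ 1) →
      (∀ i, |η i - ξ i| ≤ δ) →
      |MvPolynomial.aeval ξ g| ≤ K ∧
      |MvPolynomial.aeval η g - MvPolynomial.aeval ξ g| ≤ K * δ ∧
      |MvPolynomial.aeval η g - MvPolynomial.aeval ξ g -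
        ∑ i, MvPolynomial.aeval ξ (MvPolynomial.pderiv i g) * (η i - ξ i)| ≤ K * δ ^ 2 := by
  classical
  induction g using MvPolynomial.induction_on with
  | C a =>
    refine ⟨|(a : ℝ)|, abs_nonneg _, ?_⟩
    intro ξ η δ hδ _ _ _
    simp only [MvPolynomial.aeval_C, MvPolynomial.pderiv_C, map_zero, zero_mul,
      Finset.sum_const_zero, sub_self, abs_zero]
    refine ⟨?_, by positivity, by positivity⟩
    simp
  | add p q hp hq =>
    obtain ⟨K, hK, h1⟩ := hp
    obtain ⟨L, hL, h2⟩ := hq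
    refine ⟨K + L, by positivity, ?_⟩
    intro ξ η δ hδ hξ hη hd
    obtain ⟨a1, a2, a3⟩ := h1 ξ η δ hδ hξ hη hd
    obtain ⟨b1, b2, b3⟩ := h2 ξ η δ hδ hξ hη hd
    simp only [map_add]
    refine ⟨?_, ?_, ?_⟩
    · exact (abs_add_le _ _).trans (add_le_add a1 b1)
    · have h3 : MvPolynomial.aeval η p + MvPolynomial.aeval η q -
        (MvPolynomial.aeval ξ p + MvPolynomial.aeval ξ q) =
        (MvPolynomial.aeval η p - MvPolynomial.aeval ξ p) +
        (MvPolynomial.aeval η q - MvPolynomial.aeval ξ q) := by ring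
      rw [h3, add_mul]
      exact (abs_add_le _ _).trans (add_le_add a2 b2)
    · have h3 : MvPolynomial.aeval η p + MvPolynomial.aeval η q -
        (MvPolynomial.aeval ξ p + MvPolynomial.aeval ξ q) -
        ∑ i, (MvPolynomial.aeval ξ (MvPolynomial.pderiv i p) +
          MvPolynomial.aeval ξ (MvPolynomial.pderiv i q)) * (η i - ξ i) =
        (MvPolynomial.aeval η p - MvPolynomial.aeval ξ p -
          ∑ i, MvPolynomial.aeval ξ (MvPolynomial.pderiv i p) * (η i - ξ i)) +
        (MvPolynomial.aeval η q - MvPolynomial.aeval ξ q -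
          ∑ i, MvPolynomial.aeval ξ (MvPolynomial.pderiv i q) * (η i - ξ i)) := by
        simp only [add_mul, Finset.sum_add_distrib]
        ring
      rw [h3, add_mul]
      exact (abs_add_le _ _).trans (add_le_add a3 b3)
  | mul_X p j hp =>
    obtain ⟨K, hK, h1⟩ := hp
    refine ⟨2 * K, by positivity, ?_⟩
    intro ξ η δ hδ hξ hη hd
    obtain ⟨a1, a2, a3⟩ := h1 ξ η δ hδ hξ hη hd
    simp only [map_mul, MvPolynomial.aeval_X]
    refine ⟨?_, ?_, ?_⟩
    · rw [abs_mul]
      calc |MvPolynomial.aeval ξ p| * |ξ j| ≤ K * 1 :=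
            mul_le_mul a1 (hξ j) (abs_nonneg _) hK
        _ ≤ 2 * K := by linarith
    · have h3 : MvPolynomial.aeval η p * η j - MvPolynomial.aeval ξ p * ξ j =
        (MvPolynomial.aeval η p - MvPolynomial.aeval ξ p) * η j +
          MvPolynomial.aeval ξ p * (η j - ξ j) := by ring
      rw [h3]
      refine (abs_add_le _ _).trans ?_
      rw [abs_mul, abs_mul]
      have h4 : |MvPolynomial.aeval η p - MvPolynomial.aeval ξ p| * |η j| ≤ (K * δ) * 1 :=
        mul_le_mul a2 (hη j) (abs_nonneg _) (by positivity)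
      have h5 : |MvPolynomial.aeval ξ p| * |η j - ξ j| ≤ K * δ :=
        mul_le_mul a1 (hd j) (abs_nonneg _) hK
      linarith
    · have hder : ∑ i, MvPolynomial.aeval ξ (MvPolynomial.pderiv i (p * MvPolynomial.X j)) *
          (η i - ξ i) =
          (∑ i, MvPolynomial.aeval ξ (MvPolynomial.pderiv i p) * (η i - ξ i)) * ξ j +
          MvPolynomial.aeval ξ p * (η j - ξ j) := by
        have h6 : ∀ i, MvPolynomial.aeval ξ (MvPolynomial.pderiv i (p * MvPolynomial.X j)) *
          (η i - ξ i) = MvPolynomial.aeval ξ (MvPolynomial.pderiv i p) * (η i - ξ i) * ξ j +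
            (if i = j then MvPolynomial.aeval ξ p * (η i - ξ i) else 0) := by
          intro i
          rw [MvPolynomial.pderiv_mul]
          split_ifs with hij
          · subst hij
            rw [MvPolynomial.pderiv_X_self]
            simp only [map_add, map_mul, MvPolynomial.aeval_X, mul_one]
            ring
          · rw [MvPolynomial.pderiv_X_of_ne (Ne.symm hij)]
            simp only [map_mul, MvPolynomial.aeval_X, mul_zero, add_zero]
            ring
        simp only [h6, Finset.sum_add_distrib, ← Finset.sum_mul]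
        simp
      rw [hder]
      have h3 : MvPolynomial.aeval η p * η j - MvPolynomial.aeval ξ p * ξ j -
          ((∑ i, MvPolynomial.aeval ξ (MvPolynomial.pderiv i p) * (η i - ξ i)) * ξ j +
          MvPolynomial.aeval ξ p * (η j - ξ j)) =
          (MvPolynomial.aeval η p - MvPolynomial.aeval ξ p -
            ∑ i, MvPolynomial.aeval ξ (MvPolynomial.pderiv i p) * (η i - ξ i)) * ξ j +
          (MvPolynomial.aeval η p - MvPolynomial.aeval ξ p) * (η j - ξ j) := by ring
      rw [h3]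
      refine (abs_add_le _ _).trans ?_
      rw [abs_mul, abs_mul]
      have h4 : |MvPolynomial.aeval η p - MvPolynomial.aeval ξ p -
            ∑ i, MvPolynomial.aeval ξ (MvPolynomial.pderiv i p) * (η i - ξ i)| * |ξ j| ≤
            (K * δ ^ 2) * 1 :=
        mul_le_mul a3 (hξ j) (abs_nonneg _) (by positivity)
      have h5 : |MvPolynomial.aeval η p - MvPolynomial.aeval ξ p| * |η j - ξ j| ≤ (K * δ) * δ :=
        mul_le_mul a2 (hd j) (abs_nonneg _) (by positivity)
      nlinarith

theorem form_eq_sum {d : ℕ} {R : ℝ} {f : MvPolynomial ι ℤ} (hf : IsF d R f) :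
    f = ∑ m ∈ mons ι d, MvPolynomial.C (f.coeff m) * MvPolynomial.monomial m 1 := by
  classical
  apply MvPolynomial.ext
  intro m
  rw [MvPolynomial.coeff_sum]
  simp only [MvPolynomial.coeff_C_mul, MvPolynomial.coeff_monomial, mul_ite, mul_one, mul_zero]
  rw [Finset.sum_ite_eq']
  split_ifs with h
  · rfl
  · by_contra hne
    exact h (mem_mons.mpr (homog_sum_eq hf.1 hne))

/-- Taylor estimates for forms. -/
theorem form_taylor (ι : Type*) [Fintype ι] (d : ℕ) : ∃ K : ℝ, 0 ≤ K ∧
    ∀ (R : ℝ), 0 ≤ R → ∀ f : MvPolynomial ι ℤ, IsF d R f →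
    ∀ (ξ η : ι → ℝ) (δ : ℝ), 0 ≤ δ → (∀ i, |ξ i| ≤ 1) → (∀ i, |η i| ≤ 1) →
      (∀ i, |η i - ξ i| ≤ δ) →
      |MvPolynomial.aeval η f| ≤ |MvPolynomial.aeval ξ f| +
        ∑ i, |MvPolynomial.aeval ξ (MvPolynomial.pderiv i f)| * δ + K * R * δ ^ 2 ∧
      ∀ i, |MvPolynomial.aeval η (MvPolynomial.pderiv i f)| ≤
        |MvPolynomial.aeval ξ (MvPolynomial.pderiv i f)| + K * R * δ := by
  classical
  choose K hK hT using fun g : MvPolynomial ι ℤ => taylor_aux g
  set K1 : ℝ := ∑ m ∈ mons ι d, K (MvPolynomial.monomial m 1) with hK1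
  set K2 : ℝ := ∑ i, ∑ m ∈ mons ι d, K (MvPolynomial.pderiv i (MvPolynomial.monomial m 1)) with hK2
  have hK1' : 0 ≤ K1 := Finset.sum_nonneg (fun m _ => hK _)
  have hK2' : 0 ≤ K2 := Finset.sum_nonneg (fun i _ => Finset.sum_nonneg (fun m _ => hK _))
  refine ⟨K1 + K2, by positivity, ?_⟩
  intro R hR f hf ξ η δ hδ hξ hη hd
  have hfs := form_eq_sum hf
  constructor
  · have e1 : ∀ x : ι → ℝ, MvPolynomial.aeval x f =
        ∑ m ∈ mons ι d, ((f.coeff m : ℤ) : ℝ) * MvPolynomial.aeval x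
          (MvPolynomial.monomial m (1 : ℤ)) := by
      intro x
      conv_lhs => rw [hfs]
      rw [map_sum]
      refine Finset.sum_congr rfl (fun m _ => ?_)
      rw [map_mul, MvPolynomial.aeval_C]
      rfl
    have e2 : ∀ i, MvPolynomial.aeval ξ (MvPolynomial.pderiv i f) =
        ∑ m ∈ mons ι d, ((f.coeff m : ℤ) : ℝ) * MvPolynomial.aeval ξ
          (MvPolynomial.pderiv i (MvPolynomial.monomial m (1 : ℤ))) := by
      intro i
      conv_lhs => rw [hfs]
      rw [map_sum, map_sum]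
      refine Finset.sum_congr rfl (fun m _ => ?_)
      rw [MvPolynomial.pderiv_C_mul, map_mul, MvPolynomial.aeval_C]
      rfl
    have e3 : MvPolynomial.aeval η f - MvPolynomial.aeval ξ f -
        ∑ i, MvPolynomial.aeval ξ (MvPolynomial.pderiv i f) * (η i - ξ i) =
        ∑ m ∈ mons ι d, ((f.coeff m : ℤ) : ℝ) *
          (MvPolynomial.aeval η (MvPolynomial.monomial m (1 : ℤ)) -
            MvPolynomial.aeval ξ (MvPolynomial.monomial m (1 : ℤ)) -
            ∑ i, MvPolynomial.aeval ξ (MvPolynomial.pderiv i (MvPolynomial.monomial m (1 : ℤ))) *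
              (η i - ξ i)) := by
      have e3' : ∑ i, MvPolynomial.aeval ξ (MvPolynomial.pderiv i f) * (η i - ξ i) =
          ∑ m ∈ mons ι d, ((f.coeff m : ℤ) : ℝ) *
            ∑ i, MvPolynomial.aeval ξ (MvPolynomial.pderiv i (MvPolynomial.monomial m (1 : ℤ))) *
              (η i - ξ i) := by
        simp only [e2, Finset.sum_mul, Finset.mul_sum]
        rw [Finset.sum_comm]
        refine Finset.sum_congr rfl (fun m _ => Finset.sum_congr rfl (fun i _ => ?_))
        ring
      rw [e1, e1, e3', ← Finset.sum_sub_distrib, ← Finset.sum_sub_distrib]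
      refine Finset.sum_congr rfl (fun m _ => ?_)
      ring
    have e4 : |MvPolynomial.aeval η f - MvPolynomial.aeval ξ f -
        ∑ i, MvPolynomial.aeval ξ (MvPolynomial.pderiv i f) * (η i - ξ i)| ≤ K1 * R * δ ^ 2 := by
      rw [e3]
      refine (Finset.abs_sum_le_sum_abs _ _).trans ?_
      rw [hK1, Finset.sum_mul, Finset.sum_mul]
      refine Finset.sum_le_sum (fun m _ => ?_)
      rw [abs_mul]
      have h1 := (hT (MvPolynomial.monomial m 1) ξ η δ hδ hξ hη hd).2.2
      have h2 := hf.2 m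
      calc |((f.coeff m : ℤ) : ℝ)| * _ ≤ R * (K (MvPolynomial.monomial m 1) * δ ^ 2) :=
            mul_le_mul h2 h1 (abs_nonneg _) hR
        _ = _ := by ring
    have e5 : |∑ i, MvPolynomial.aeval ξ (MvPolynomial.pderiv i f) * (η i - ξ i)| ≤
        ∑ i, |MvPolynomial.aeval ξ (MvPolynomial.pderiv i f)| * δ := by
      refine (Finset.abs_sum_le_sum_abs _ _).trans ?_
      refine Finset.sum_le_sum (fun i _ => ?_)
      rw [abs_mul]
      exact mul_le_mul_of_nonneg_left (hd i) (abs_nonneg _)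
    have e6 : MvPolynomial.aeval η f = MvPolynomial.aeval ξ f +
        (∑ i, MvPolynomial.aeval ξ (MvPolynomial.pderiv i f) * (η i - ξ i)) +
        (MvPolynomial.aeval η f - MvPolynomial.aeval ξ f -
        ∑ i, MvPolynomial.aeval ξ (MvPolynomial.pderiv i f) * (η i - ξ i)) := by ring
    rw [e6]
    refine (abs_add_le _ _).trans ?_
    refine (add_le_add (abs_add_le _ _) le_rfl).trans ?_
    have h7 : 0 ≤ K2 * R * δ ^ 2 := by positivity
    have h8 : (K1 + K2) * R * δ ^ 2 = K1 * R * δ ^ 2 + K2 * R * δ ^ 2 := by ring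
    rw [h8]
    linarith
  · intro i
    have e2 : ∀ x : ι → ℝ, MvPolynomial.aeval x (MvPolynomial.pderiv i f) =
        ∑ m ∈ mons ι d, ((f.coeff m : ℤ) : ℝ) * MvPolynomial.aeval x
          (MvPolynomial.pderiv i (MvPolynomial.monomial m (1 : ℤ))) := by
      intro x
      conv_lhs => rw [hfs]
      rw [map_sum, map_sum]
      refine Finset.sum_congr rfl (fun m _ => ?_)
      rw [MvPolynomial.pderiv_C_mul, map_mul, MvPolynomial.aeval_C]
      rfl
    have e3 : |MvPolynomial.aeval η (MvPolynomial.pderiv i f) -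
        MvPolynomial.aeval ξ (MvPolynomial.pderiv i f)| ≤
        (∑ m ∈ mons ι d, K (MvPolynomial.pderiv i (MvPolynomial.monomial m 1))) * R * δ := by
      rw [e2, e2, ← Finset.sum_sub_distrib]
      refine (Finset.abs_sum_le_sum_abs _ _).trans ?_
      rw [Finset.sum_mul, Finset.sum_mul]
      refine Finset.sum_le_sum (fun m _ => ?_)
      rw [← mul_sub, abs_mul]
      have h1 := (hT (MvPolynomial.pderiv i (MvPolynomial.monomial m 1)) ξ η δ hδ hξ hη hd).2.1
      have h2 := hf.2 m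
      calc |((f.coeff m : ℤ) : ℝ)| * _ ≤
            R * (K (MvPolynomial.pderiv i (MvPolynomial.monomial m 1)) * δ) :=
            mul_le_mul h2 h1 (abs_nonneg _) hR
        _ = _ := by ring
    have e4 : (∑ m ∈ mons ι d, K (MvPolynomial.pderiv i (MvPolynomial.monomial m 1))) ≤ K2 := by
      rw [hK2]
      exact Finset.single_le_sum
        (f := fun i => ∑ m ∈ mons ι d, K (MvPolynomial.pderiv i (MvPolynomial.monomial m 1)))
        (fun i _ => Finset.sum_nonneg (fun m _ => hK _)) (Finset.mem_univ i)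
    have e5 : (∑ m ∈ mons ι d, K (MvPolynomial.pderiv i (MvPolynomial.monomial m 1))) * R * δ ≤
        (K1 + K2) * R * δ := by
      apply mul_le_mul_of_nonneg_right _ hδ
      apply mul_le_mul_of_nonneg_right _ hR
      linarith
    have e6 : MvPolynomial.aeval η (MvPolynomial.pderiv i f) =
        MvPolynomial.aeval ξ (MvPolynomial.pderiv i f) +
        (MvPolynomial.aeval η (MvPolynomial.pderiv i f) -
        MvPolynomial.aeval ξ (MvPolynomial.pderiv i f)) := by ring
    rw [e6]
    refine (abs_add_le _ _).trans ?_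
    linarith

open scoped Classical in
/-- For a fixed point, few forms are almost singular there. -/
theorem bad_real_point (e : ℕ) (r : ι) (η : ι → ℝ) (hη : η r = 1) (C₁ : ℝ) (hC : 0 ≤ C₁)
    (γ R : ℝ) (hγ : 0 < γ) (hγ1 : γ ≤ 1) (hγR : 1 ≤ γ ^ 2 * R) :
    (((formsZ ι (e + 2) R).filter (fun f =>
      |MvPolynomial.aeval η f| ≤ C₁ * γ ^ 2 * R ∧
      ∀ i, |MvPolynomial.aeval η (MvPolynomial.pderiv i f)| ≤ C₁ * γ * R)).card : ℝ) ≤
    (formsZ ι (e + 2) (2 * R)).card * ∏ i, ((2 * C₁ + 1) * (if i = r then γ ^ 2 else γ)) := by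
  have hR : 0 < R := by
    by_contra h
    push Not at h
    have : γ ^ 2 * R ≤ 0 := mul_nonpos_of_nonneg_of_nonpos (by positivity) h
    linarith
  set s : ι → ℝ := fun i => if i = r then γ ^ 2 else γ with hs
  have hspos : ∀ i, 0 < s i := by
    intro i; simp only [hs]; split_ifs <;> positivity
  have hsR : ∀ i, 1 ≤ s i * R := by
    intro i; simp only [hs]; split_ifs
    · exact hγR
    · have : γ ^ 2 * R ≤ γ * R := by
        apply mul_le_mul_of_nonneg_right _ hR.le
        nlinarith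
      linarith
  set M : ι → ℕ := fun i => ⌊2 * C₁ * s i * R⌋₊ + 1 with hM
  have hMlt : ∀ i, 2 * C₁ * s i * R < M i := by
    intro i
    simp only [hM]
    push_cast
    exact Nat.lt_floor_add_one _
  have hMle : ∀ i, (M i : ℝ) ≤ (2 * C₁ + 1) * s i * R := by
    intro i
    simp only [hM]
    push_cast
    have h1 : (⌊2 * C₁ * s i * R⌋₊ : ℝ) ≤ 2 * C₁ * s i * R := by
      apply Nat.floor_le
      have := hspos i
      positivity
    have h2 := hsR i
    linarith
  have hMpos : ∀ i, 0 < M i := fun i => Nat.succ_pos _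
  set T : ι → ℕ := fun i => ⌊R / M i⌋₊ with hT
  set B : Finset (ι → ℤ) := (Fintype.piFinset (fun i => Finset.range (T i + 1))).image
    (fun t i => (M i : ℤ) * (t i : ℤ)) with hB
  have hBcard : B.card = ∏ i, (T i + 1) := by
    rw [hB, Finset.card_image_of_injective, Fintype.card_piFinset]
    · simp
    · intro t t' h
      funext i
      have h1 := congrFun h i
      simp only at h1
      have h2 : (M i : ℤ) ≠ 0 := by exact_mod_cast (hMpos i).ne'
      have h3 := mul_left_cancel₀ h2 h1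
      exact_mod_cast h3
  have hmain := inj_count e r R R hR.le (fun f =>
      |MvPolynomial.aeval η f| ≤ C₁ * γ ^ 2 * R ∧
      ∀ i, |MvPolynomial.aeval η (MvPolynomial.pderiv i f)| ≤ C₁ * γ * R) B
    (by
      intro c hc i
      rw [hB, Finset.mem_image] at hc
      obtain ⟨t, ht, rfl⟩ := hc
      have h1 := Finset.mem_range.mp (Fintype.mem_piFinset.mp ht i)
      push_cast
      rw [abs_of_nonneg (by positivity)]
      have h2 : (t i : ℝ) ≤ R / M i := by
        have h3 : (t i : ℝ) ≤ (T i : ℝ) := by exact_mod_cast Nat.lt_succ_iff.mp h1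
        refine h3.trans ?_
        simp only [hT]
        exact Nat.floor_le (by positivity)
      have h4 : (0 : ℝ) < M i := by exact_mod_cast hMpos i
      rw [le_div_iff₀ h4] at h2
      linarith)
    (by
      rintro f g ⟨f1, f2⟩ ⟨g1, g2⟩ c hc c' hc' hpe
      rw [hB, Finset.mem_image] at hc hc'
      obtain ⟨t, ht, rfl⟩ := hc
      obtain ⟨t', ht', rfl⟩ := hc'
      have key : ∀ i, |(((M i : ℤ) * (t i : ℤ) - (M i : ℤ) * (t' i : ℤ) : ℤ) : ℝ)| < M i →
          (M i : ℤ) * (t i : ℤ) = (M i : ℤ) * (t' i : ℤ) := by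
        intro i hi
        have h1 : |((M i : ℤ) * (t i : ℤ) - (M i : ℤ) * (t' i : ℤ) : ℤ)| < (M i : ℤ) := by
          exact_mod_cast hi
        have h2 : (M i : ℤ) ∣ ((M i : ℤ) * (t i : ℤ) - (M i : ℤ) * (t' i : ℤ)) :=
          ⟨t i - t' i, by ring⟩
        have h3 := Int.eq_zero_of_abs_lt_dvd h2 h1
        omega
      have hne : ∀ i, i ≠ r → (M i : ℤ) * (t i : ℤ) = (M i : ℤ) * (t' i : ℤ) := by
        intro i hi
        apply key
        have h3 := pert_pderiv e r (fun i => (M i : ℤ) * (t i : ℤ) - (M i : ℤ) * (t' i : ℤ)) η hη hi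
        rw [← h3, hpe, map_sub, map_sub]
        refine lt_of_le_of_lt (abs_sub _ _) ?_
        have h4 := hMlt i
        have h5 : s i = γ := by simp only [hs]; rw [if_neg hi]
        rw [h5] at h4
        have h6 := f2 i
        have h7 := g2 i
        linarith
      have hr : (M r : ℤ) * (t r : ℤ) = (M r : ℤ) * (t' r : ℤ) := by
        apply key
        have h3 := pert_aeval e r (fun i => (M i : ℤ) * (t i : ℤ) - (M i : ℤ) * (t' i : ℤ)) η hη
        have h4 : ∑ i, (((M i : ℤ) * (t i : ℤ) - (M i : ℤ) * (t' i : ℤ) : ℤ) : ℝ) * η i =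
            (((M r : ℤ) * (t r : ℤ) - (M r : ℤ) * (t' r : ℤ) : ℤ) : ℝ) := by
          rw [Finset.sum_eq_single r]
          · rw [hη, mul_one]
          · intro i _ hi
            rw [hne i hi, sub_self, Int.cast_zero, zero_mul]
          · intro h; exact absurd (Finset.mem_univ r) h
        rw [← h4, ← h3, hpe, map_sub]
        refine lt_of_le_of_lt (abs_sub _ _) ?_
        have h5 := hMlt r
        have h6 : s r = γ ^ 2 := by simp [hs]
        rw [h6] at h5
        linarith
      funext i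
      by_cases hi : i = r
      · subst hi; exact hr
      · exact hne i hi)
  rw [hBcard, show R + R = 2 * R by ring] at hmain
  set A := ((formsZ ι (e + 2) R).filter (fun f =>
      |MvPolynomial.aeval η f| ≤ C₁ * γ ^ 2 * R ∧
      ∀ i, |MvPolynomial.aeval η (MvPolynomial.pderiv i f)| ≤ C₁ * γ * R)).card with hA
  have hmain' : (A : ℝ) * ∏ i, ((T i : ℝ) + 1) ≤ (formsZ ι (e + 2) (2 * R)).card := by
    have : ((A * ∏ i, (T i + 1) : ℕ) : ℝ) ≤ ((formsZ ι (e + 2) (2 * R)).card : ℝ) := by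
      exact_mod_cast hmain
    rw [Nat.cast_mul, Nat.cast_prod] at this
    simpa using this
  have hone : ∀ i, 1 ≤ ((T i : ℝ) + 1) * ((2 * C₁ + 1) * s i) := by
    intro i
    have h4 : (0 : ℝ) < M i := by exact_mod_cast hMpos i
    have h1 : R / M i < (T i : ℝ) + 1 := by
      simp only [hT]
      exact Nat.lt_floor_add_one _
    rw [div_lt_iff₀ h4] at h1
    have h2 := hMle i
    have h5 : (0 : ℝ) ≤ (T i : ℝ) + 1 := by positivity
    have h3 : R < ((T i : ℝ) + 1) * ((2 * C₁ + 1) * s i * R) :=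
      lt_of_lt_of_le h1 (mul_le_mul_of_nonneg_left h2 h5)
    have h6 : 1 * R < ((T i : ℝ) + 1) * ((2 * C₁ + 1) * s i) * R := by linarith
    exact (lt_of_mul_lt_mul_right h6 hR.le).le
  have hprod : 1 ≤ (∏ i, ((T i : ℝ) + 1)) * ∏ i, ((2 * C₁ + 1) * s i) := by
    rw [← Finset.prod_mul_distrib]
    calc (1 : ℝ) = ∏ _i : ι, (1 : ℝ) := by simp
      _ ≤ _ := Finset.prod_le_prod (fun i _ => zero_le_one) (fun i _ => hone i)
  have hnn : 0 ≤ ∏ i, ((2 * C₁ + 1) * s i) := by
    apply Finset.prod_nonneg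
    intro i _
    have := hspos i
    positivity
  calc (A : ℝ) = A * 1 := by ring
    _ ≤ A * ((∏ i, ((T i : ℝ) + 1)) * ∏ i, ((2 * C₁ + 1) * s i)) :=
        mul_le_mul_of_nonneg_left hprod (by positivity)
    _ = (A * ∏ i, ((T i : ℝ) + 1)) * ∏ i, ((2 * C₁ + 1) * s i) := by ring
    _ ≤ _ := mul_le_mul_of_nonneg_right hmain' hnn

open scoped Classical in
theorem bad_count_real (e : ℕ) : ∃ C : ℝ, 0 < C ∧ ∀ (γ R : ℝ), 0 < γ → γ ≤ 1 → 1 ≤ γ ^ 2 * R →
    (((formsZ ι (e + 2) R).filter (fun f => ∃ (r : ι) (ξ : ι → ℝ), ξ r = 1 ∧ (∀ i, |ξ i| ≤ 1) ∧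
      |MvPolynomial.aeval ξ f| ≤ γ ^ 2 * R ∧
      ∀ i, |MvPolynomial.aeval ξ (MvPolynomial.pderiv i f)| ≤ γ * R)).card : ℝ) ≤
    C * γ ^ 2 * (formsZ ι (e + 2) (2 * R)).card := by
  obtain ⟨K, hK, hT⟩ := form_taylor ι (e + 2)
  set k := Fintype.card ι with hk
  set C₁ : ℝ := 1 + k + K with hC₁
  have hC₁0 : 0 ≤ C₁ := by positivity
  set D : ℝ := 2 * C₁ + 1 with hD
  have hD0 : 0 < D := by positivity
  refine ⟨k * (5 * D) ^ k + 1, by positivity, ?_⟩
  intro γ R hγ hγ1 hγR
  have hR : 0 < R := by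
    by_contra h
    push Not at h
    have : γ ^ 2 * R ≤ 0 := mul_nonpos_of_nonneg_of_nonpos (by positivity) h
    linarith
  set N : ℕ := ⌈1 / γ⌉₊ with hN
  have hN1 : 1 / γ ≤ N := Nat.le_ceil _
  have hN2 : (N : ℝ) < 1 / γ + 1 := Nat.ceil_lt_add_one (by positivity)
  have hginv : 1 ≤ 1 / γ := by rw [le_div_iff₀ hγ]; linarith
  have hN0 : (0 : ℝ) < N := by linarith
  have hNn : 0 < N := by exact_mod_cast hN0
  set G : ι → Finset (ι → ℤ) := fun r => Fintype.piFinset
    (fun i => if i = r then {(N : ℤ)} else Finset.Icc (-(N : ℤ)) N) with hG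
  set P : (ι → ℤ) → Finset (MvPolynomial ι ℤ) := fun y => (formsZ ι (e + 2) R).filter (fun f =>
      |MvPolynomial.aeval (fun i => (y i : ℝ) / N) f| ≤ C₁ * γ ^ 2 * R ∧
      ∀ i, |MvPolynomial.aeval (fun i => (y i : ℝ) / N) (MvPolynomial.pderiv i f)| ≤
        C₁ * γ * R) with hP
  have hcov : (formsZ ι (e + 2) R).filter (fun f => ∃ (r : ι) (ξ : ι → ℝ), ξ r = 1 ∧
      (∀ i, |ξ i| ≤ 1) ∧ |MvPolynomial.aeval ξ f| ≤ γ ^ 2 * R ∧
      ∀ i, |MvPolynomial.aeval ξ (MvPolynomial.pderiv i f)| ≤ γ * R) ⊆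
      (Finset.univ : Finset ι).biUnion (fun r => (G r).biUnion (fun y => P y)) := by
    intro f hf
    obtain ⟨hf1, r, ξ, hξr, hξ, h1, h2⟩ := Finset.mem_filter.mp hf
    rw [Finset.mem_biUnion]
    refine ⟨r, Finset.mem_univ _, ?_⟩
    rw [Finset.mem_biUnion]
    have hlo : ∀ i, -(N : ℝ) ≤ N * ξ i := by
      intro i
      have := (abs_le.mp (hξ i)).1
      nlinarith
    have hhi : ∀ i, N * ξ i ≤ N := by
      intro i
      have := (abs_le.mp (hξ i)).2
      nlinarith
    have hy1 : ∀ i, -(N : ℤ) ≤ ⌊N * ξ i⌋ := by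
      intro i
      rw [Int.le_floor]
      push_cast
      exact hlo i
    have hy2 : ∀ i, ⌊N * ξ i⌋ ≤ (N : ℤ) := by
      intro i
      have h3 := (Int.floor_le (N * ξ i)).trans (hhi i)
      exact_mod_cast h3
    refine ⟨fun i => ⌊N * ξ i⌋, ?_, ?_⟩
    · simp only [hG]
      rw [Fintype.mem_piFinset]
      intro i
      split_ifs with hir
      · subst hir
        rw [Finset.mem_singleton, hξr, mul_one]
        simp
      · rw [Finset.mem_Icc]
        exact ⟨hy1 i, hy2 i⟩
    · simp only [hP]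
      rw [Finset.mem_filter]
      have hη1 : ∀ i, |((⌊N * ξ i⌋ : ℤ) : ℝ) / N| ≤ 1 := by
        intro i
        rw [abs_div, abs_of_pos hN0, div_le_one hN0, abs_le]
        constructor
        · exact_mod_cast hy1 i
        · exact_mod_cast hy2 i
      have hηd : ∀ i, |((⌊N * ξ i⌋ : ℤ) : ℝ) / N - ξ i| ≤ γ := by
        intro i
        have h3 : ((⌊N * ξ i⌋ : ℤ) : ℝ) / N - ξ i = (((⌊N * ξ i⌋ : ℤ) : ℝ) - N * ξ i) / N := by
          field_simp
        rw [h3, abs_div, abs_of_pos hN0, div_le_iff₀ hN0]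
        have h4 : 1 ≤ γ * N := by
          rw [div_le_iff₀ hγ] at hN1
          linarith
        refine le_trans ?_ h4
        rw [abs_le]
        constructor
        · have := Int.lt_floor_add_one (N * ξ i)
          linarith
        · have := Int.floor_le (N * ξ i)
          linarith
      obtain ⟨t1, t2⟩ := hT R hR.le f (mem_formsZ.mp hf1) ξ
        (fun i => ((⌊N * ξ i⌋ : ℤ) : ℝ) / N) γ hγ.le hξ hη1 hηd
      refine ⟨hf1, ?_, fun i => ?_⟩
      · have h5 : ∑ i, |MvPolynomial.aeval ξ (MvPolynomial.pderiv i f)| * γ ≤ k * (γ * R * γ) := by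
          have : ∀ i ∈ (Finset.univ : Finset ι),
              |MvPolynomial.aeval ξ (MvPolynomial.pderiv i f)| * γ ≤ γ * R * γ :=
            fun i _ => mul_le_mul_of_nonneg_right (h2 i) hγ.le
          have h6 := Finset.sum_le_card_nsmul _ _ _ this
          rw [nsmul_eq_mul, Finset.card_univ] at h6
          exact h6
        rw [hC₁]
        nlinarith
      · have h6 := t2 i
        have h7 := h2 i
        rw [hC₁]
        have h8 : 0 ≤ (k : ℝ) * γ * R := by positivity
        nlinarith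
  have hpt : ∀ r, ∀ y ∈ G r, ((P y).card : ℝ) ≤ (formsZ ι (e + 2) (2 * R)).card *
      ∏ i, (D * (if i = r then γ ^ 2 else γ)) := by
    intro r y hy
    simp only [hP]
    apply bad_real_point e r _ _ C₁ hC₁0 γ R hγ hγ1 hγR
    simp only [hG] at hy
    have h3 := Fintype.mem_piFinset.mp hy r
    simp only [if_true, Finset.mem_singleton] at h3
    rw [h3]
    push_cast
    exact div_self hN0.ne'
  have hGc : ∀ r, ((G r).card : ℝ) * ∏ i, (D * (if i = r then γ ^ 2 else γ)) ≤
      (5 * D) ^ k * γ ^ 2 := by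
    intro r
    have h3 : ((G r).card : ℝ) = ∏ i, ((if i = r then 1 else 2 * N + 1 : ℝ)) := by
      simp only [hG]
      rw [Fintype.card_piFinset, Nat.cast_prod]
      refine Finset.prod_congr rfl (fun i _ => ?_)
      split_ifs
      · simp
      · rw [Int.card_Icc]
        have h4 : ((N : ℤ) + 1 - -(N : ℤ)).toNat = 2 * N + 1 := by omega
        rw [h4]
        push_cast
        ring
    rw [h3, ← Finset.prod_mul_distrib]
    have h5 : ∏ i : ι, (5 * D * (if i = r then γ ^ 2 else 1)) = (5 * D) ^ k * γ ^ 2 := by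
      rw [Finset.prod_mul_distrib, Finset.prod_const, Finset.card_univ, ← hk,
        Finset.prod_ite_eq']
      simp
    rw [← h5]
    apply Finset.prod_le_prod
    · intro i _
      split_ifs <;> positivity
    · intro i _
      split_ifs
      · have : 0 < D * γ ^ 2 := by positivity
        linarith
      · have h6 : (2 * N + 1) * γ ≤ 5 := by
          have h7 : (N : ℝ) * γ < (1 / γ + 1) * γ := mul_lt_mul_of_pos_right hN2 hγ
          have h8 : (1 / γ + 1) * γ = 1 + γ := by field_simp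
          rw [h8] at h7
          linarith
        calc (2 * (N : ℝ) + 1) * (D * γ) = D * ((2 * N + 1) * γ) := by ring
          _ ≤ D * 5 := mul_le_mul_of_nonneg_left h6 hD0.le
          _ = 5 * D * 1 := by ring
  set F : ℝ := ((formsZ ι (e + 2) (2 * R)).card : ℝ) with hF
  have hF0 : 0 ≤ F := by positivity
  calc (((formsZ ι (e + 2) R).filter (fun f => ∃ (r : ι) (ξ : ι → ℝ), ξ r = 1 ∧
      (∀ i, |ξ i| ≤ 1) ∧ |MvPolynomial.aeval ξ f| ≤ γ ^ 2 * R ∧
      ∀ i, |MvPolynomial.aeval ξ (MvPolynomial.pderiv i f)| ≤ γ * R)).card : ℝ) ≤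
      ((∑ r : ι, ∑ y ∈ G r, (P y).card : ℕ) : ℝ) := by
        have := (Finset.card_le_card hcov).trans (Finset.card_biUnion_le.trans
          (Finset.sum_le_sum (fun r _ => Finset.card_biUnion_le)))
        exact_mod_cast this
    _ = ∑ r : ι, ∑ y ∈ G r, ((P y).card : ℝ) := by push_cast; rfl
    _ ≤ ∑ r : ι, ((G r).card : ℝ) * (F * ∏ i, (D * (if i = r then γ ^ 2 else γ))) := by
        refine Finset.sum_le_sum (fun r _ => ?_)
        rw [← nsmul_eq_mul]
        exact Finset.sum_le_card_nsmul _ _ _ (hpt r)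
    _ ≤ ∑ _r : ι, F * ((5 * D) ^ k * γ ^ 2) := by
        refine Finset.sum_le_sum (fun r _ => ?_)
        have h3 := mul_le_mul_of_nonneg_left (hGc r) hF0
        calc _ = F * (((G r).card : ℝ) * ∏ i, (D * (if i = r then γ ^ 2 else γ))) := by ring
          _ ≤ _ := h3
    _ = k * (5 * D) ^ k * γ ^ 2 * F := by
        rw [Finset.sum_const, Finset.card_univ, nsmul_eq_mul]; ring
    _ ≤ (k * (5 * D) ^ k + 1) * γ ^ 2 * F := by
        apply mul_le_mul_of_nonneg_right _ hF0
        apply mul_le_mul_of_nonneg_right _ (by positivity)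
        linarith

end Pool.Agent.Y278.Z8
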